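import Mathlib
import Pool.Agent.W263.SP.Stm

/-! Project SP, part SP-SET. -/

set_option autoImplicit false

namespace Pool.Agent.W583.SP

open MeasureTheory Set Filter

theorem set_main : Pool.Agent.W263.SP.SET := by
  intro f r E EL C hC hf hE hEL hEeq hr hlow hhigh ε hε
  obtain ⟨k0, hk0def⟩ : ∃ k0 : ℝ, k0 = min 1 (Real.sqrt (ε / (48 * (C + 1)))) := ⟨_, rfl⟩
  have hk0pos : 0 < k0 := by
    rw [hk0def]
    exact lt_min one_pos (Real.sqrt_pos.2 (by positivity))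
  have hk0sq : k0 ^ 2 ≤ ε / (48 * (C + 1)) := by
    have h1 : k0 ≤ Real.sqrt (ε / (48 * (C + 1))) := by rw [hk0def]; exact min_le_right _ _
    calc k0 ^ 2 ≤ (Real.sqrt (ε / (48 * (C + 1)))) ^ 2 := by gcongr
      _ = _ := Real.sq_sqrt (by positivity)
  have hCk : 3 * C * k0 ^ 2 ≤ ε / 16 := by
    calc 3 * C * k0 ^ 2 ≤ 3 * C * (ε / (48 * (C + 1))) := by gcongr
      _ = ε / 16 * (C / (C + 1)) := by
        field_simp
        ring
      _ ≤ ε / 16 * 1 := by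
        gcongr
        rw [div_le_one (by positivity)]
        linarith
      _ = ε / 16 := mul_one _
  refine ⟨k0 / 4, by positivity, ?_⟩
  have hx : Tendsto (fun U : ℝ => U ^ (1 / 4 : ℝ)) atTop atTop := tendsto_rpow_atTop (by norm_num)
  have e1 : ∀ᶠ U : ℝ in atTop, ‖Real.log U‖ ≤ 1 * ‖U ^ (1 / 2 : ℝ)‖ :=
    (isLittleO_log_rpow_atTop (by norm_num : (0 : ℝ) < 1 / 2)).bound one_pos
  have e2 : ∀ᶠ U : ℝ in atTop,
      4 * C / ε ^ 2 ≤ Real.exp (k0 / 4 * U ^ (1 / 4 : ℝ)) / (U ^ (1 / 4 : ℝ)) ^ (8 : ℝ) :=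
    ((tendsto_exp_mul_div_rpow_atTop 8 (k0 / 4) (by positivity)).comp hx).eventually_ge_atTop _
  have e3 : ∀ᶠ U : ℝ in atTop, Real.log 2 / k0 ≤ U ^ (1 / 4 : ℝ) := hx.eventually_ge_atTop _
  have e4 : ∀ᶠ u : ℝ in atTop, |r u / u| < ε / 4 := by
    have := (Metric.tendsto_nhds.1 hr) (ε / 4) (by positivity)
    filter_upwards [this] with u hu
    rwa [Real.dist_eq, sub_zero] at hu
  obtain ⟨a, ha⟩ := Filter.eventually_atTop.1 e4
  filter_upwards [e1, e2, e3, eventually_ge_atTop a, eventually_ge_atTop (3 : ℝ)] with U h1 h2 h3 h4 h5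
  have hUpos : 0 < U := by linarith
  have hlogU : 1 ≤ Real.log U := by
    rw [Real.le_log_iff_exp_le hUpos]
    linarith [Real.exp_one_lt_d9]
  have hlogpos : 0 < Real.log U := by linarith
  rw [one_mul, Real.norm_eq_abs, Real.norm_eq_abs, abs_of_pos hlogpos,
    abs_of_pos (Real.rpow_pos_of_pos hUpos _)] at h1
  have hq2 : (U ^ (1 / 4 : ℝ)) ^ 2 = U ^ (1 / 2 : ℝ) := by
    rw [← Real.rpow_natCast, ← Real.rpow_mul hUpos.le]
    norm_num
  have hq8 : (U ^ (1 / 4 : ℝ)) ^ (8 : ℝ) = U ^ 2 := by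
    rw [← Real.rpow_mul hUpos.le]
    norm_num
  have hh : U ^ (1 / 2 : ℝ) * U ^ (1 / 2 : ℝ) = U := by
    rw [← Real.rpow_add hUpos]
    norm_num
  obtain ⟨s, hs⟩ : ∃ s : ℝ, s = Real.sqrt (U / Real.log U) := ⟨_, rfl⟩
  have hs2 : s ^ 2 = U / Real.log U := by
    rw [hs]
    exact Real.sq_sqrt (by positivity)
  have hsq : U ^ (1 / 4 : ℝ) ≤ s := by
    rw [hs]
    apply Real.le_sqrt_of_sq_le
    rw [hq2, le_div_iff₀ hlogpos]
    calc U ^ (1 / 2 : ℝ) * Real.log U ≤ U ^ (1 / 2 : ℝ) * U ^ (1 / 2 : ℝ) := by gcongr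
      _ = U := hh
  rw [← hs]
  obtain ⟨T, hT⟩ : ∃ T : ℝ, T = Real.exp (k0 * s) := ⟨_, rfl⟩
  have hlogT : Real.log T = k0 * s := by rw [hT, Real.log_exp]
  have hTpos : 0 < T := by rw [hT]; exact Real.exp_pos _
  have hT2 : 2 ≤ T := by
    rw [hT, ← Real.log_le_iff_le_exp (by norm_num)]
    rw [div_le_iff₀ hk0pos] at h3
    calc Real.log 2 ≤ U ^ (1 / 4 : ℝ) * k0 := h3
      _ ≤ s * k0 := by gcongr
      _ = k0 * s := mul_comm _ _
  -- the pointwise bound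
  have hpt : ∀ u ∈ {u : ℝ | U ≤ u ∧ u ≤ U + 1 ∧ ε < |f u|}, ε * U / 2 ≤ |E u - EL T u| := by
    rintro u ⟨hu1, hu2, hu3⟩
    have hupos : 0 < u := by linarith
    have hlogu : Real.log u ≤ 2 * Real.log U := by
      have : Real.log u ≤ Real.log (U ^ 2) := Real.log_le_log hupos (by nlinarith)
      rwa [Real.log_pow, Nat.cast_ofNat] at this
    have hEL' : |EL T u| ≤ ε / 16 * U := by
      calc |EL T u| ≤ C * Real.log T ^ 2 * (1 + Real.log u) := hlow T hT2 u (by linarith)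
        _ ≤ C * Real.log T ^ 2 * (3 * Real.log U) := by
          gcongr
          linarith
        _ = 3 * C * k0 ^ 2 * (s ^ 2 * Real.log U) := by rw [hlogT]; ring
        _ = 3 * C * k0 ^ 2 * U := by rw [hs2, div_mul_cancel₀ _ hlogpos.ne']
        _ ≤ ε / 16 * U := by gcongr
    have hru : |r u| ≤ ε / 4 * u := by
      have := (ha u (by linarith)).le
      rwa [abs_div, abs_of_pos hupos, div_le_iff₀ hupos] at this
    have hEu : 3 / 4 * ε * U ≤ |E u| := by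
      rw [hEeq u hupos]
      have h6 : |u * f u| - |r u| ≤ |u * f u - r u| := abs_sub_abs_le_abs_sub _ _
      rw [abs_mul, abs_of_pos hupos] at h6
      have h7 : u * ε ≤ u * |f u| := by gcongr
      have h8 : ε * U ≤ ε * u := by gcongr
      nlinarith
    have h9 : |E u| - |EL T u| ≤ |E u - EL T u| := abs_sub_abs_le_abs_sub _ _
    have h10 : 0 < ε * U := by positivity
    linarith
  have hsub : {u : ℝ | U ≤ u ∧ u ≤ U + 1 ∧ ε < |f u|} ⊆
      {u | ENNReal.ofReal ((ε * U / 2) ^ 2) ≤ ENNReal.ofReal ((E u - EL T u) ^ 2)} ∩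
        Icc U (U + 1) := by
    intro u hu
    refine ⟨?_, hu.1, hu.2.1⟩
    show ENNReal.ofReal ((ε * U / 2) ^ 2) ≤ ENNReal.ofReal ((E u - EL T u) ^ 2)
    apply ENNReal.ofReal_le_ofReal
    rw [← sq_abs (E u - EL T u)]
    have := hpt u hu
    have h0 : 0 ≤ ε * U / 2 := by positivity
    gcongr
  have hcheb : ENNReal.ofReal ((ε * U / 2) ^ 2) *
      volume {u : ℝ | U ≤ u ∧ u ≤ U + 1 ∧ ε < |f u|} ≤
      ENNReal.ofReal (C * U ^ 4 / T ^ (1 / 2 : ℝ)) := by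
    have hm : Measurable fun u => ENNReal.ofReal ((E u - EL T u) ^ 2) :=
      ((hE.sub (hEL T)).pow_const 2).ennreal_ofReal
    calc ENNReal.ofReal ((ε * U / 2) ^ 2) * volume {u : ℝ | U ≤ u ∧ u ≤ U + 1 ∧ ε < |f u|}
        ≤ ENNReal.ofReal ((ε * U / 2) ^ 2) * (volume.restrict (Icc U (U + 1)))
          {u | ENNReal.ofReal ((ε * U / 2) ^ 2) ≤ ENNReal.ofReal ((E u - EL T u) ^ 2)} := by
          refine mul_le_mul_right ?_ _
          rw [Measure.restrict_apply (measurableSet_le measurable_const hm)]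
          exact measure_mono hsub
      _ ≤ ∫⁻ u in Icc U (U + 1), ENNReal.ofReal ((E u - EL T u) ^ 2) :=
          mul_meas_ge_le_lintegral hm _
      _ ≤ _ := hhigh T hT2 U (by linarith)
  have hpos : 0 < (ε * U / 2) ^ 2 := by positivity
  have hThalf : T ^ (1 / 2 : ℝ) = Real.exp (k0 * s / 2) := by
    rw [hT, ← Real.exp_mul]
    congr 1
    ring
  have hfin : C * U ^ 4 / T ^ (1 / 2 : ℝ) ≤ (ε * U / 2) ^ 2 * Real.exp (-(k0 / 4 * s)) := by
    rw [hq8, le_div_iff₀ (by positivity), div_mul_eq_mul_div, div_le_iff₀ (by positivity)] at h2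
    have h11 : Real.exp (k0 / 4 * U ^ (1 / 4 : ℝ)) ≤ Real.exp (k0 / 4 * s) := by
      apply Real.exp_le_exp.2
      gcongr
    have h12 : 4 * C * U ^ 2 ≤ Real.exp (k0 / 4 * s) * ε ^ 2 := by
      calc 4 * C * U ^ 2 ≤ Real.exp (k0 / 4 * U ^ (1 / 4 : ℝ)) * ε ^ 2 := h2
        _ ≤ _ := by gcongr
    rw [hThalf, div_le_iff₀ (Real.exp_pos _)]
    have h13 : Real.exp (-(k0 / 4 * s)) * Real.exp (k0 * s / 2) = Real.exp (k0 / 4 * s) := by
      rw [← Real.exp_add]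
      congr 1
      ring
    calc C * U ^ 4 = U ^ 2 / 4 * (4 * C * U ^ 2) := by ring
      _ ≤ U ^ 2 / 4 * (Real.exp (k0 / 4 * s) * ε ^ 2) := by gcongr
      _ = (ε * U / 2) ^ 2 * (Real.exp (-(k0 / 4 * s)) * Real.exp (k0 * s / 2)) := by
        rw [h13]
        ring
      _ = _ := by ring
  have hne : ENNReal.ofReal ((ε * U / 2) ^ 2) ≠ 0 := by
    rw [Ne, ENNReal.ofReal_eq_zero, not_le]
    exact hpos
  have h14 : ENNReal.ofReal ((ε * U / 2) ^ 2) *
      volume {u : ℝ | U ≤ u ∧ u ≤ U + 1 ∧ ε < |f u|} ≤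
      ENNReal.ofReal ((ε * U / 2) ^ 2) * ENNReal.ofReal (Real.exp (-(k0 / 4 * s))) := by
    rw [← ENNReal.ofReal_mul hpos.le]
    exact hcheb.trans (ENNReal.ofReal_le_ofReal hfin)
  exact (ENNReal.mul_le_mul_iff_right hne ENNReal.ofReal_ne_top).1 h14

end Pool.Agent.W583.SP
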